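import Pool.Agent.H523.ZG.Stm

/-!
# Project ZG (helper523), `S_K5`: the self-correlation of the kernel
-/

set_option autoImplicit false

namespace Pool.Agent.H155.ZG

open Finset Pool.Agent.H523.ZG

theorem int_poly (c : ℕ → ℝ) (N : ℕ) (a b : ℝ) :
    ∫ x in a..b, ∑ k ∈ range N, c k * x ^ k =
      ∑ k ∈ range N, c k * ((b ^ (k + 1) - a ^ (k + 1)) / ((k : ℝ) + 1)) := by
  rw [intervalIntegral.integral_finsetSum
    (fun k _ => (Continuous.intervalIntegrable (by fun_prop) _ _))]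
  refine sum_congr rfl fun k _ => ?_
  rw [intervalIntegral.integral_const_mul, integral_pow]

/-- coefficients -/
noncomputable def c1 (t : ℝ) : ℕ → ℝ
  | 0 => (-5) * t ^ 0 + 24 * t ^ 2 + (-15) * t ^ 4
  | 1 => 48 * t ^ 1 + (-60) * t ^ 3
  | 2 => (73/2) * t ^ 0 + (-150) * t ^ 2 + (75/2) * t ^ 4
  | 3 => (-180) * t ^ 1 + 150 * t ^ 3
  | 4 => (-85) * t ^ 0 + 273 * t ^ 2 + (-30) * t ^ 4
  | 5 => 246 * t ^ 1 + (-120) * t ^ 3
  | 6 => 88 * t ^ 0 + (-192) * t ^ 2 + (15/2) * t ^ 4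
  | 7 => (-144) * t ^ 1 + 30 * t ^ 3
  | 8 => (-42) * t ^ 0 + 45 * t ^ 2
  | 9 => 30 * t ^ 1
  | 10 => (15/2) * t ^ 0
  | _ => 0

/-- coefficients -/
noncomputable def c2 (t : ℝ) : ℕ → ℝ
  | 0 => 1 * t ^ 0 + (-5/2) * t ^ 2 + 2 * t ^ 4 + (-1/2) * t ^ 6
  | 1 => (-5) * t ^ 1 + 8 * t ^ 3 + (-3) * t ^ 5
  | 2 => (-5) * t ^ 0 + (73/4) * t ^ 2 + (-25/2) * t ^ 4 + (5/4) * t ^ 6
  | 3 => (41/2) * t ^ 1 + (-30) * t ^ 3 + (15/2) * t ^ 5
  | 4 => (41/4) * t ^ 0 + (-85/2) * t ^ 2 + (91/4) * t ^ 4 + (-1) * t ^ 6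
  | 5 => (-33) * t ^ 1 + 41 * t ^ 3 + (-6) * t ^ 5
  | 6 => (-11) * t ^ 0 + 44 * t ^ 2 + (-16) * t ^ 4 + (1/4) * t ^ 6
  | 7 => 26 * t ^ 1 + (-24) * t ^ 3 + (3/2) * t ^ 5
  | 8 => (13/2) * t ^ 0 + (-21) * t ^ 2 + (15/4) * t ^ 4
  | 9 => (-10) * t ^ 1 + 5 * t ^ 3
  | 10 => (-2) * t ^ 0 + (15/4) * t ^ 2
  | 11 => (3/2) * t ^ 1
  | 12 => (1/4) * t ^ 0
  | _ => 0

theorem e1 (t x : ℝ) : Gx x * G2 (x + t) = ∑ k ∈ range 11, c1 t k * x ^ k := by
  unfold Gx G2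
  simp only [sum_range_succ, sum_range_zero, c1]
  ring

theorem e2 (t x : ℝ) : Gx x * Gx (x + t) = ∑ k ∈ range 13, c2 t k * x ^ k := by
  unfold Gx
  simp only [sum_range_succ, sum_range_zero, c2]
  ring

theorem v1 (t : ℝ) : ∑ k ∈ range 11, c1 t k * (((1 - t) ^ (k + 1) - (-1) ^ (k + 1)) /
    ((k : ℝ) + 1)) = B2 t := by
  unfold B2
  simp only [sum_range_succ, sum_range_zero, c1]
  push_cast
  ring

theorem v2 (t : ℝ) : ∑ k ∈ range 13, c2 t k * (((1 - t) ^ (k + 1) - (-1) ^ (k + 1)) /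
    ((k : ℝ) + 1)) = Bx t := by
  unfold Bx
  simp only [sum_range_succ, sum_range_zero, c2]
  push_cast
  ring

theorem main : S_K5 := by
  intro t c
  have h1 : ∫ x in (-1:ℝ)..(1 - t), Gx x * G2 (x + t) = B2 t := by
    rw [← v1 t, ← int_poly]
    exact intervalIntegral.integral_congr fun x _ => e1 t x
  have h2 : ∫ x in (-1:ℝ)..(1 - t), Gx x * Gx (x + t) = Bx t := by
    rw [← v2 t, ← int_poly]
    exact intervalIntegral.integral_congr fun x _ => e2 t x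
  have hG : Continuous Gx := by unfold Gx; fun_prop
  have hG2 : Continuous G2 := by unfold G2; fun_prop
  have hi1 : IntervalIntegrable (fun x => Gx x * G2 (x + t)) MeasureTheory.volume (-1) (1 - t) :=
    Continuous.intervalIntegrable (hG.mul (hG2.comp (by fun_prop))) _ _
  have hi2 : IntervalIntegrable (fun x => c ^ 2 * (Gx x * Gx (x + t))) MeasureTheory.volume (-1)
      (1 - t) :=
    Continuous.intervalIntegrable (continuous_const.mul (hG.mul (hG.comp (by fun_prop)))) _ _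
  rw [← h1, ← h2, ← intervalIntegral.integral_const_mul, ← intervalIntegral.integral_add hi1 hi2]
  exact intervalIntegral.integral_congr fun x _ => by
    show Gx x * (G2 (x + t) + c ^ 2 * Gx (x + t)) = Gx x * G2 (x + t) + c ^ 2 * (Gx x * Gx (x + t))
    ring

end Pool.Agent.H155.ZG
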